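import Pool.Agent.Helper68.LM.St

/-!
# Project LM, module BBC
-/

set_option autoImplicit false

open MeasureTheory Set Filter Topology
open scoped ENNReal RealInnerProductSpace FourierTransform

namespace Pool.Agent.Helper4.LM

open Pool.Agent.Helper68.LM

private lemma bbc_Sm_le (hPH : StPH) (g : Pl → ℝ) (K s : ℝ) (hK : ∀ x, |g x| ≤ K) (x : Pl) :
    |Sm s g x| ≤ K := by
  obtain ⟨hc, h0, h1, hint, hI, -⟩ := hPH
  have h2 : ‖∫ z : Pl, ph z * g (x - s • z)‖ ≤ ∫ z : Pl, ph z * K := by
    refine norm_integral_le_of_norm_le (hI.mul_const K) (Eventually.of_forall fun z => ?_)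
    rw [Real.norm_eq_abs, abs_mul, abs_of_nonneg (h0 z)]
    exact mul_le_mul_of_nonneg_left (hK _) (h0 z)
  rw [integral_mul_const, hint, one_mul, Real.norm_eq_abs] at h2
  exact h2

private lemma bbc_fin {ν : Measure Pl} {R L : ℝ} (h : Bd R L ν) : IsFiniteMeasure ν :=
  ⟨lt_of_le_of_lt h.2 ENNReal.ofReal_lt_top⟩

private lemma bbc_mass {ν : Measure Pl} {R L : ℝ} (h : Bd R L ν) : ν.real univ ≤ max L 0 := by
  have h1 := ENNReal.toReal_mono ENNReal.ofReal_ne_top h.2
  rw [ENNReal.toReal_ofReal'] at h1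
  exact h1

private lemma bbc_Av_le (ν : Measure Pl) (R L t : ℝ) (g : Pl → ℝ) (K : ℝ) (h : Bd R L ν)
    (hK : ∀ x, |g x| ≤ K) (x : Pl) : |Av ν t g x| ≤ max L 0 * K := by
  have hK0 : 0 ≤ K := (abs_nonneg _).trans (hK 0)
  have := bbc_fin h
  have h1 : ‖∫ y, g (x - t • y) ∂ν‖ ≤ K * ν.real univ :=
    norm_integral_le_of_norm_le_const (Eventually.of_forall fun y => by
      rw [Real.norm_eq_abs]; exact hK _)
  rw [Real.norm_eq_abs] at h1
  refine h1.trans ?_
  rw [mul_comm]
  exact mul_le_mul_of_nonneg_right (bbc_mass h) hK0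

private lemma bbc_Sm_int (hPH : StPH) (g : Pl → ℝ) (s : ℝ) (x : Pl) (hg : BB g) :
    Integrable (fun z : Pl => ph z * g (x - s • z)) := by
  obtain ⟨hc, h0, h1, hint, hI, -⟩ := hPH
  obtain ⟨hgm, K, hK, -⟩ := hg
  refine Integrable.mono' (hI.mul_const K) ?_ (Eventually.of_forall fun z => ?_)
  · have h2 : Measurable (fun z : Pl => g (x - s • z)) :=
      hgm.comp (measurable_const.sub (measurable_id.const_smul s))
    exact (hc.measurable.mul h2).aestronglyMeasurable
  · rw [Real.norm_eq_abs, abs_mul, abs_of_nonneg (h0 z)]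
    exact mul_le_mul_of_nonneg_left (hK _) (h0 z)

private lemma bbc_Av_int (ν : Measure Pl) (R L t : ℝ) (g : Pl → ℝ) (x : Pl) (h : Bd R L ν)
    (hg : BB g) : Integrable (fun y => g (x - t • y)) ν := by
  have := bbc_fin h
  obtain ⟨hgm, K, hK, -⟩ := hg
  refine Integrable.of_bound ?_ K (Eventually.of_forall fun y => ?_)
  · have h2 : Measurable (fun y : Pl => g (x - t • y)) :=
      hgm.comp (measurable_const.sub (measurable_id.const_smul t))
    exact h2.aestronglyMeasurable
  · rw [Real.norm_eq_abs]; exact hK _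

theorem hBBC (hPH : StPH) : StBBC := by
  have hPH' := hPH
  obtain ⟨hc, h0, h1, hint, hI, -⟩ := hPH'
  refine ⟨?_, ?_, ?_, fun g K s hK x => bbc_Sm_le hPH g K s hK x, ?_, ?_, ?_⟩
  · rintro g h ⟨hgm, Kg, hKg, hsg⟩ ⟨hhm, Kh, hKh, hsh⟩
    have hg0 : 0 ≤ Kg := (abs_nonneg _).trans (hKg 0)
    have hh0 : 0 ≤ Kh := (abs_nonneg _).trans (hKh 0)
    refine ⟨hgm.sub hhm, Kg + Kh, fun x => ?_, fun x hx => ?_⟩
    · exact (abs_sub _ _).trans (add_le_add (hKg x) (hKh x))
    · change g x - h x = 0
      rw [hsg x (by linarith), hsh x (by linarith), sub_zero]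
  · rintro g s ⟨hgm, K, hK, hsg⟩
    have hK0 : 0 ≤ K := (abs_nonneg _).trans (hK 0)
    refine ⟨?_, K + |s|, fun x => ?_, fun x hx => ?_⟩
    · have h2 : Measurable (fun p : Pl × Pl => ph p.2 * g (p.1 - s • p.2)) :=
        (hc.measurable.comp measurable_snd).mul
          (hgm.comp (measurable_fst.sub (measurable_snd.const_smul s)))
      exact (h2.stronglyMeasurable.integral_prod_right).measurable
    · exact (bbc_Sm_le hPH g K s hK x).trans (by linarith [abs_nonneg s])
    · have h3 : ∀ z : Pl, ph z * g (x - s • z) = 0 := by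
        intro z
        by_cases hz : 1 ≤ ‖z‖
        · rw [h1 z hz, zero_mul]
        · push Not at hz
          have h4 : K < ‖x - s • z‖ := by
            have h5 : ‖x‖ - ‖s • z‖ ≤ ‖x - s • z‖ := norm_sub_norm_le _ _
            have h6 : ‖s • z‖ ≤ |s| := by
              rw [norm_smul, Real.norm_eq_abs]
              exact mul_le_of_le_one_right (abs_nonneg s) hz.le
            linarith
          rw [hsg _ h4, mul_zero]
      rw [Sm, integral_congr_ae (Eventually.of_forall h3)]
      simp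
  · rintro ν R L t g hB ht ⟨hgm, K, hK, hsg⟩
    have hK0 : 0 ≤ K := (abs_nonneg _).trans (hK 0)
    have := bbc_fin hB
    have hm0 : 0 ≤ max L 0 * K := mul_nonneg (le_max_right _ _) hK0
    have hR0 : 0 ≤ t * |R| := mul_nonneg ht (abs_nonneg R)
    refine ⟨?_, max L 0 * K + (K + t * |R|), fun x => ?_, fun x hx => ?_⟩
    · have h2 : Measurable (fun p : Pl × Pl => g (p.1 - t • p.2)) :=
        hgm.comp (measurable_fst.sub (measurable_snd.const_smul t))
      exact (h2.stronglyMeasurable.integral_prod_right).measurable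
    · exact (bbc_Av_le ν R L t g K hB hK x).trans (by linarith)
    · have h3 : (fun y => g (x - t • y)) =ᵐ[ν] 0 := by
        have h4 : ∀ᵐ y ∂ν, y ∈ Metric.closedBall (0 : Pl) R := by
          rw [ae_iff]
          exact hB.1
        filter_upwards [h4] with y hy
        have h5 : ‖y‖ ≤ R := by simpa using hy
        have h6 : ‖t • y‖ ≤ t * |R| := by
          rw [norm_smul, Real.norm_eq_abs, abs_of_nonneg ht]
          exact mul_le_mul_of_nonneg_left (h5.trans (le_abs_self R)) ht
        have h7 : ‖x‖ - ‖t • y‖ ≤ ‖x - t • y‖ := norm_sub_norm_le _ _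
        exact hsg _ (by linarith)
      rw [Av, integral_congr_ae h3]
      simp
  · intro ν R L t g K hB hL hK x
    have h2 := bbc_Av_le ν R L t g K hB hK x
    rwa [max_eq_left hL] at h2
  · intro g h s x hg hh
    simp only [Sm, mul_add]
    exact integral_add (bbc_Sm_int hPH g s x hg) (bbc_Sm_int hPH h s x hh)
  · intro ν R L t g h x hB hg hh
    simp only [Av]
    exact integral_add (bbc_Av_int ν R L t g x hB hg) (bbc_Av_int ν R L t h x hB hh)

end Pool.Agent.Helper4.LM
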